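import Pool.Agent.R272.ConeFix

set_option autoImplicit false

/-!
# A real analytic nonexpansive map with nonsmooth fixed point set

On `ℝ³` with the sup norm there is a nonexpansive real analytic map whose fixed point set is not a
`C¹` embedded submanifold.
-/

namespace Pool.Agent.Results.MP_8dfbdc_an.NonsmoothFixedPointSet

open Filter Topology

/-- The norm of `X` is polyhedral: it is the maximum of the absolute values of finitely many linear
functionals. -/
def IsPolyhedral (X : Type) [NormedAddCommGroup X] [NormedSpace ℝ X] : Prop :=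
  ∃ (m : ℕ) (φ : Fin m → X →ₗ[ℝ] ℝ), ∀ x : X, IsGreatest (Set.range fun i => |φ i x|) ‖x‖

/-- `M` is a differentiable manifold, that is a `C¹` embedded submanifold of `X`: every point of `M`
has an open neighbourhood `U = ψ.source` and a `C¹` diffeomorphism `ψ` from `U` onto an open subset
of `ℝⁿ`, `n = dim X`, which maps `U ∩ M` onto the set of the points of `ψ(U)` whose coordinates with
index `≥ k` vanish (for some `k`). -/
def IsC1Submanifold {X : Type} [NormedAddCommGroup X] [NormedSpace ℝ X] (M : Set X) : Prop :=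
  ∀ p ∈ M, ∃ (k : ℕ) (ψ : OpenPartialHomeomorph X (Fin (Module.finrank ℝ X) → ℝ)),
    p ∈ ψ.source ∧ ContDiffOn ℝ 1 ψ ψ.source ∧ ContDiffOn ℝ 1 ψ.symm ψ.target ∧
    ∀ x ∈ ψ.source, (x ∈ M ↔ ∀ i : Fin (Module.finrank ℝ X), k ≤ (i : ℕ) → ψ x i = 0)

open Pool.Agent.R272.ConeFix in
theorem not_submanifold : ¬ IsC1Submanifold {x : Fin 3 → ℝ | f x = x} := by
  intro h
  obtain ⟨k, ψ, h0, hψ, hψ', hM⟩ := h 0 fix_origin
  have hsrc : ψ.source ∈ 𝓝 (0 : Fin 3 → ℝ) := ψ.open_source.mem_nhds h0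
  have htgt : ψ.target ∈ 𝓝 (ψ 0) := ψ.open_target.mem_nhds (ψ.map_source h0)
  have hd : DifferentiableAt ℝ ψ 0 :=
    ((hψ 0 h0).contDiffAt hsrc).differentiableAt (by norm_num)
  have hd' : DifferentiableAt ℝ ψ.symm (ψ 0) :=
    ((hψ' _ (ψ.map_source h0)).contDiffAt htgt).differentiableAt (by norm_num)
  set D := fderiv ℝ ψ 0 with hD
  have hcomp : (fderiv ℝ ψ.symm (ψ 0)).comp D = ContinuousLinearMap.id ℝ (Fin 3 → ℝ) := by
    have h1 : HasFDerivAt (ψ.symm ∘ ψ) ((fderiv ℝ ψ.symm (ψ 0)).comp D) 0 :=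
      hd'.hasFDerivAt.comp 0 hd.hasFDerivAt
    have h2 : ψ.symm ∘ ψ =ᶠ[𝓝 0] id := by
      filter_upwards [hsrc] with x hx
      exact ψ.left_inv hx
    have h3 : HasFDerivAt (ψ.symm ∘ ψ) (ContinuousLinearMap.id ℝ (Fin 3 → ℝ)) 0 :=
      (hasFDerivAt_id (𝕜 := ℝ) (0 : Fin 3 → ℝ)).congr_of_eventuallyEq h2
    exact h1.unique h3
  have hinj : Function.Injective D := by
    intro x y hxy
    have e1 := congrArg (fun L : (Fin 3 → ℝ) →L[ℝ] (Fin 3 → ℝ) => L x) hcomp
    have e2 := congrArg (fun L : (Fin 3 → ℝ) →L[ℝ] (Fin 3 → ℝ) => L y) hcomp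
    simp only [ContinuousLinearMap.comp_apply, ContinuousLinearMap.id_apply] at e1 e2
    rw [← e1, ← e2, hxy]
  have hsurj : Function.Surjective D := by
    have hrank : Module.finrank ℝ (Fin 3 → ℝ)
        = Module.finrank ℝ (Fin (Module.finrank ℝ (Fin 3 → ℝ)) → ℝ) := by
      rw [Module.finrank_fin_fun ℝ (n := Module.finrank ℝ (Fin 3 → ℝ))]
    exact (LinearMap.injective_iff_surjective_of_finrank_eq_finrank
      (f := (D : (Fin 3 → ℝ) →ₗ[ℝ] _)) hrank).1 hinj
  have hnone : ∀ i : Fin (Module.finrank ℝ (Fin 3 → ℝ)), ¬ k ≤ (i : ℕ) := by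
    intro i hi
    have hg : HasFDerivAt (fun x => ψ x i)
        ((ContinuousLinearMap.proj (R := ℝ) (φ := fun _ => ℝ) i).comp D) 0 :=
      (ContinuousLinearMap.proj (R := ℝ)
        (φ := fun _ : Fin (Module.finrank ℝ (Fin 3 → ℝ)) => ℝ) i).hasFDerivAt.comp 0
        hd.hasFDerivAt
    have hz := fderiv_zero hg (by
      filter_upwards [hsrc] with x hx hfx
      exact (hM x hx).1 hfx i hi)
    obtain ⟨v, hv⟩ := hsurj (Pi.single i 1)
    have e1 := congrArg (fun L : (Fin 3 → ℝ) →L[ℝ] ℝ => L v) hz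
    simp only [ContinuousLinearMap.comp_apply, hv] at e1
    simp at e1
  -- hence all points near the origin are fixed
  have hall : ∀ᶠ x in 𝓝 (0 : Fin 3 → ℝ), f x = x := by
    filter_upwards [hsrc] with x hx
    exact (hM x hx).2 fun i hi => absurd hi (hnone i)
  have htend : Tendsto (fun t : ℝ => (Pi.single 2 t : Fin 3 → ℝ)) (𝓝[>] 0) (𝓝 0) := by
    have hc : Continuous (fun t : ℝ => (Pi.single 2 t : Fin 3 → ℝ)) :=
      (LinearMap.single ℝ (fun _ : Fin 3 => ℝ) 2).continuous_of_finiteDimensional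
    have := hc.tendsto 0
    rw [Pi.single_zero] at this
    exact this.mono_left nhdsWithin_le_nhds
  obtain ⟨t, ht1, ht2⟩ := ((htend.eventually hall).and self_mem_nhdsWithin).exists
  have ht2' : (0 : ℝ) < t := ht2
  exact not_fix (p := Pi.single 2 t) (by simpa using ht2') (by simpa using ht2')
    (by simpa using ht2') ht1

/-- There are a finite-dimensional real normed space `X` with a polyhedral norm and a nonexpansive
real analytic map `f : X → X` with a fixed point whose fixed point set is not a differentiable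
manifold (a `C¹` embedded submanifold of `X`). -/
theorem result : ∃ (X : Type) (_ : NormedAddCommGroup X) (_ : NormedSpace ℝ X),
    FiniteDimensional ℝ X ∧ IsPolyhedral X ∧
    ∃ f : X → X, (∀ x y, ‖f x - f y‖ ≤ ‖x - y‖) ∧ AnalyticOnNhd ℝ f Set.univ ∧
      (∃ x, f x = x) ∧ ¬ IsC1Submanifold {x | f x = x} :=
  ⟨Fin 3 → ℝ, inferInstance, inferInstance, inferInstance,
    ⟨3, fun i => LinearMap.proj i, Pool.Agent.R272.ConeFix.norm_isGreatest⟩,
    Pool.Agent.R272.ConeFix.f, Pool.Agent.R272.ConeFix.nonexpansive,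
    Pool.Agent.R272.ConeFix.analytic, ⟨0, Pool.Agent.R272.ConeFix.fix_origin⟩, not_submanifold⟩

end Pool.Agent.Results.MP_8dfbdc_an.NonsmoothFixedPointSet
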